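import Pool.Agent.Lib.MP_db21b4_co.Count

set_option autoImplicit false

namespace Pool.Agent.Results.MP_db21b4_co.FailsForAllOddOrders

open Pool.Agent.Lib.MP_db21b4_co

theorem three_in_case (n : ℕ) (hn : 5 ≤ n) (hodd : Odd n ∨ n ≤ 10)
    (Bv : Fin 5 → Fin 5 → Prop) (hB : IsOrientation bowtie Bv) (h3 : {i | Bv i 0}.ncard = 3) :
    ∃ G : SimpleGraph (Fin n), 2 ^ SimpleGraph.extremalNumber n bowtie <
      Nat.card {O : Fin n → Fin n → Prop // IsOrientation G O ∧
        ¬ ∃ f : Fin 5 → Fin n, Function.Injective f ∧ ∀ i j, Bv i j → O (f i) (f j)} := by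
  have hex := extremal_le n hn
  have hpow : 2 ^ SimpleGraph.extremalNumber n bowtie ≤ 2 ^ (n ^ 2 / 4 + 1) :=
    Nat.pow_le_pow_right (by norm_num) hex
  by_cases ho : Odd n
  · obtain ⟨a, ha⟩ := ho
    obtain ⟨G, hG⟩ := count_lower a a n (by omega) Bv hB h3
    refine ⟨G, lt_of_le_of_lt hpow (lt_of_lt_of_le ?_ hG)⟩
    have e1 : n ^ 2 / 4 + 1 = a * a + (a + 1) := by
      rw [ha, show (2 * a + 1) ^ 2 = 4 * (a * a + a) + 1 by ring]
      omega
    rw [e1, pow_add, mul_comm]
    apply Nat.mul_lt_mul_of_pos_right _ (by positivity)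
    have h2 : 4 ≤ a * a := by nlinarith
    have h4 : 0 < 2 ^ a := by positivity
    rw [pow_succ]
    omega
  · have h10 : n ≤ 10 := hodd.resolve_left ho
    have hcases : n = 6 ∨ n = 8 ∨ n = 10 := by
      rw [Nat.not_odd_iff_even] at ho
      obtain ⟨k, hk⟩ := ho
      omega
    rcases hcases with h | h | h
    · obtain ⟨G, hG⟩ := count_lower 3 2 n (by omega) Bv hB h3
      exact ⟨G, lt_of_le_of_lt hpow (lt_of_lt_of_le (by rw [h]; norm_num) hG)⟩
    · obtain ⟨G, hG⟩ := count_lower 4 3 n (by omega) Bv hB h3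
      exact ⟨G, lt_of_le_of_lt hpow (lt_of_lt_of_le (by rw [h]; norm_num) hG)⟩
    · obtain ⟨G, hG⟩ := count_lower 5 4 n (by omega) Bv hB h3
      exact ⟨G, lt_of_le_of_lt hpow (lt_of_lt_of_le (by rw [h]; norm_num) hG)⟩

theorem isOrientation_flip {V : Type} {G : SimpleGraph V} {O : V → V → Prop}
    (h : IsOrientation G O) : IsOrientation G (fun u v => O v u) := by
  intro u v
  refine ⟨?_, fun hc => (h u v).2 ⟨hc.2, hc.1⟩⟩
  rw [(h u v).1]
  exact Or.comm

/-- For every odd `n ≥ 5` (and for `n = 6, 8, 10`) and every orientation of the bowtie with exactly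
three of the four edges at the center pointing towards it, or exactly three pointing away from it,
some graph on `n` vertices has more than `2 ^ ex(n, B)` orientations without a copy of it. -/
theorem result (n : ℕ) (hn : 5 ≤ n) (hodd : Odd n ∨ n ≤ 10)
    (Bv : Fin 5 → Fin 5 → Prop) (hB : IsOrientation bowtie Bv)
    (h3 : {i | Bv i 0}.ncard = 3 ∨ {i | Bv 0 i}.ncard = 3) :
    ∃ G : SimpleGraph (Fin n), 2 ^ SimpleGraph.extremalNumber n bowtie <
      Nat.card {O : Fin n → Fin n → Prop // IsOrientation G O ∧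
        ¬ ∃ f : Fin 5 → Fin n, Function.Injective f ∧ ∀ i j, Bv i j → O (f i) (f j)} := by
  rcases h3 with h3 | h3
  · exact three_in_case n hn hodd Bv hB h3
  · obtain ⟨G, hG⟩ := three_in_case n hn hodd (fun i j => Bv j i) (isOrientation_flip hB) h3
    refine ⟨G, lt_of_lt_of_le hG (le_of_eq ?_)⟩
    apply Nat.card_congr
    refine ⟨fun O => ⟨fun u v => O.1 v u, isOrientation_flip O.2.1, ?_⟩,
      fun O => ⟨fun u v => O.1 v u, isOrientation_flip O.2.1, ?_⟩, fun O => rfl, fun O => rfl⟩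
    · rintro ⟨f, hf, hhom⟩
      exact O.2.2 ⟨f, hf, fun i j hij => hhom j i hij⟩
    · rintro ⟨f, hf, hhom⟩
      exact O.2.2 ⟨f, hf, fun i j hij => hhom j i hij⟩

end Pool.Agent.Results.MP_db21b4_co.FailsForAllOddOrders
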